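import Pool.Agent.Helper96.GU.StF

set_option autoImplicit false

namespace Pool.Agent.Helper40.GF

open Pool.Agent.Helper96.UT hiding StTOP TopV TopE tht Bd VC EC
open Pool.Agent.Helper96.GU

variable {α : Type}

/-- The congruence of the proof. -/
private def con_TSC (r : FreeMonoid (α × Bool)) (Z : Cyc α) : Con (FreeMonoid (α × Bool)) where
  r u v := io r (FreeMonoid.toList u) = io r (FreeMonoid.toList v) ∧
    ∀ p : List (α × Bool), RU (io r (p ++ FreeMonoid.toList u)) →
      FreeGroup.mk (p ++ FreeMonoid.toList u) * (FreeGroup.mk (p ++ FreeMonoid.toList v))⁻¹ ∈ NT r Z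
  iseqv := by
    refine ⟨fun u => ⟨rfl, fun p _ => ?_⟩, fun {u v} h => ⟨h.1.symm, fun p hp => ?_⟩,
      fun {u v w} h h' => ⟨h.1.trans h'.1, fun p hp => ?_⟩⟩
    · rw [mul_inv_cancel]
      exact one_mem _
    · have h1 : RU (io r (p ++ FreeMonoid.toList u)) := by
        rw [io_append, h.1, ← io_append]
        exact hp
      have h2 := inv_mem (h.2 p h1)
      rwa [mul_inv_rev, inv_inv] at h2
    · have h1 : RU (io r (p ++ FreeMonoid.toList v)) := by
        rw [io_append, ← h.1, ← io_append]
        exact hp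
      have h2 := mul_mem (h.2 p hp) (h'.2 p h1)
      rwa [mul_assoc, inv_mul_cancel_left] at h2
  mul' := by
    intro u v u' v' h h'
    refine ⟨?_, fun p hp => ?_⟩
    · rw [FreeMonoid.toList_mul, FreeMonoid.toList_mul, io_append, io_append, h.1, h'.1]
    · rw [FreeMonoid.toList_mul] at hp
      rw [← List.append_assoc] at hp
      have h1 := h.2 p (RU_left hp)
      have h2 : RU (io r ((p ++ FreeMonoid.toList v) ++ FreeMonoid.toList u')) := by
        rw [io_append, io_append, ← h.1, ← io_append, ← io_append]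
        exact hp
      have h3 := mul_mem h1 (h'.2 _ h2)
      rw [FreeMonoid.toList_mul, FreeMonoid.toList_mul]
      have e : FreeGroup.mk (p ++ (FreeMonoid.toList u ++ FreeMonoid.toList u')) *
          (FreeGroup.mk (p ++ (FreeMonoid.toList v ++ FreeMonoid.toList v')))⁻¹ =
          FreeGroup.mk (p ++ FreeMonoid.toList u) * (FreeGroup.mk (p ++ FreeMonoid.toList v))⁻¹ *
          (FreeGroup.mk ((p ++ FreeMonoid.toList v) ++ FreeMonoid.toList u') *
          (FreeGroup.mk ((p ++ FreeMonoid.toList v) ++ FreeMonoid.toList v'))⁻¹) := by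
        simp only [mk_append]
        group
      rw [e]
      exact h3

private theorem con_le_TSC (r : FreeMonoid (α × Bool)) (Z : Cyc α)
    (hr : FreeMonoid.toList r = seg Z.c 0 Z.n) : conGen (Rel r) ≤ con_TSC r Z := by
  refine Con.conGen_le.2 ?_
  rintro u v (⟨w, rfl, rfl⟩ | ⟨u, w, rfl, rfl⟩ | ⟨rfl, rfl⟩)
  · rw [invRev_eq]
    refine ⟨?_, fun p _ => ?_⟩
    · rw [FreeMonoid.toList_mul, FreeMonoid.toList_mul, FreeMonoid.toList_ofList, io_append,
        io_append]
      exact io_inv r _
    · simp only [FreeMonoid.toList_mul, FreeMonoid.toList_ofList, mk_append, mk_invRev]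
      have e : FreeGroup.mk p * (FreeGroup.mk (FreeMonoid.toList v) *
          (FreeGroup.mk (FreeMonoid.toList v))⁻¹ * FreeGroup.mk (FreeMonoid.toList v)) *
          (FreeGroup.mk p * FreeGroup.mk (FreeMonoid.toList v))⁻¹ = 1 := by group
      rw [e]
      exact one_mem _
  · rw [invRev_eq, invRev_eq]
    refine ⟨?_, fun p _ => ?_⟩
    · simp only [FreeMonoid.toList_mul, FreeMonoid.toList_ofList]
      rw [io_append, io_append r (FreeMonoid.toList w ++ _)]
      exact io_comm r _ _
    · simp only [FreeMonoid.toList_mul, FreeMonoid.toList_ofList, mk_append, mk_invRev]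
      rw [mul_inv_cancel, mul_inv_cancel, mul_one, mul_one, mul_inv_cancel]
      exact one_mem _
  · refine ⟨?_, fun p hp => ?_⟩
    · exact io_r _
    · have hp1 : RU (io u p) := RU_left hp
      have e1 : FreeGroup.mk (FreeMonoid.toList u) = Z.s := by
        rw [hr, mk_seg, pre_zero, inv_one, one_mul, zero_add]
        rfl
      rw [FreeMonoid.toList_one, List.append_nil, mk_append, e1]
      exact Subgroup.subset_closure ⟨p, hp1, rfl⟩

theorem tTSC : StTSC := by
  intro α r Z hr w hw
  have hrel : conGen (Rel r) (FreeMonoid.ofList w) (FreeMonoid.ofList []) := (Con.eq _).1 hw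
  have h := (con_le_TSC r Z hr hrel).2 []
  rw [FreeMonoid.toList_ofList, FreeMonoid.toList_ofList, List.nil_append] at h
  have h1 : RU (io r w) := by
    rw [hw]
    exact RU_one r
  have h2 := h h1
  have e : FreeGroup.mk ([] : List (α × Bool)) = 1 := rfl
  rw [List.append_nil, e, inv_one, mul_one] at h2
  exact h2

end Pool.Agent.Helper40.GF
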